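import Mathlib

/-!
# Complex equiangular tight frames: definitions
-/

set_option autoImplicit false

namespace Pool.Agent.H89.ETS

variable {E : Type} [NormedAddCommGroup E] [InnerProductSpace ℂ E] {N : ℕ}

/-- An equiangular tight frame of `N` vectors in `E`: the `f i` span `E`, are unit vectors, are tight, and
`|⟨f i, f j⟩|` is the same for all `i ≠ j`. -/
def IsETF (f : Fin N → E) : Prop :=
  Submodule.span ℂ (Set.range f) = ⊤ ∧ (∀ i, ‖f i‖ = 1) ∧
    (∃ A : ℝ, 0 < A ∧ ∀ x : E, ∑ i, ‖inner ℂ x (f i)‖ ^ 2 = A * ‖x‖ ^ 2) ∧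
    ∃ c : ℝ, ∀ i j, i ≠ j → ‖inner ℂ (f i) (f j)‖ = c

/-- Equivalence: a unitary map of `E`, a permutation of the vectors and unimodular scalars. -/
def Equivalent (f g : Fin N → E) : Prop :=
  ∃ (U : E ≃ₗᵢ[ℂ] E) (σ : Equiv.Perm (Fin N)) (c : Fin N → ℂ),
    (∀ i, ‖c i‖ = 1) ∧ ∀ i, g i = c i • U (f (σ i))

/-- There is an equiangular tight frame of `N` vectors in an `n`-dimensional complex inner product
space. -/
def HasETF (N n : ℕ) : Prop :=
  ∃ (E : Type) (_ : NormedAddCommGroup E) (_ : InnerProductSpace ℂ E) (f : Fin N → E),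
    Module.finrank ℂ E = n ∧ IsETF f

/-- A skew-symmetric conference matrix of order `m`: zero diagonal, `±1` off the diagonal,
skew-symmetric, with orthogonal rows. -/
def Skew {m : ℕ} (W : Fin m → Fin m → ℤ) : Prop :=
  (∀ i, W i i = 0) ∧ ∀ i j, i ≠ j →
    (W i j = 1 ∨ W i j = -1) ∧ W j i = -W i j ∧ ∑ k, W i k * W j k = 0

/-- `n` is a block with `d` parameters. -/
def Block (n d : ℕ) : Prop :=
  (IsPrimePow n ∧ Odd n ∧ d = (n - 1) / 2) ∨
    (3 ≤ n ∧ d = 1 ∧ ∃ W : Fin (n + 1) → Fin (n + 1) → ℤ, Skew W) ∨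
    (1 ≤ n ∧ d = 0 ∧ HasETF (2 * n) n)

end Pool.Agent.H89.ETS
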