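import Mathlib
import Pool.Agent.H37.EtfDefs
import Pool.Agent.H89.ETS.Defs

/-!
# Complex equiangular tight frames: transport to any inner product space
-/

set_option autoImplicit false

namespace Pool.Agent.H89.ETS

open Pool.Agent.H37

variable {E : Type} [NormedAddCommGroup E] [InnerProductSpace ℂ E] {N M : ℕ}

theorem isETF_of (L : E ≃ₗᵢ[ℂ] EuclideanSpace ℂ (Fin M)) (f : Fin N → EuclideanSpace ℂ (Fin M))
    (h : Etf.IsETF f) : IsETF (fun i => L.symm (f i)) := by
  obtain ⟨h1, h2, ⟨A, hA, h3⟩, c, h4⟩ := h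
  refine ⟨?_, fun i => ?_, ⟨A, hA, fun x => ?_⟩, c, fun i j hij => ?_⟩
  · have e1 : Set.range (fun i => L.symm (f i)) = L.symm '' Set.range f := by
      rw [← Set.range_comp]
      rfl
    have e2 : Submodule.span ℂ (L.symm '' Set.range f) =
        (Submodule.span ℂ (Set.range f)).map (L.symm.toLinearEquiv.toLinearMap) :=
      (Submodule.map_span _ _).symm
    rw [e1, e2, h1, Submodule.map_top]
    exact LinearMap.range_eq_top.2 L.symm.surjective
  · rw [L.symm.norm_map, h2]
  · have h5 := h3 (L x)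
    rw [L.norm_map] at h5
    rw [← h5]
    refine Finset.sum_congr rfl fun i _ => ?_
    have : inner ℂ x (L.symm (f i)) = inner ℂ (L x) (f i) := by
      rw [← L.inner_map_map, L.apply_symm_apply]
    rw [this]
  · rw [L.symm.inner_map_map]
    exact h4 i j hij

theorem isETF_to (L : E ≃ₗᵢ[ℂ] EuclideanSpace ℂ (Fin M)) (f : Fin N → E)
    (h : IsETF f) : Etf.IsETF (fun i => L (f i)) := by
  obtain ⟨h1, h2, ⟨A, hA, h3⟩, c, h4⟩ := h
  refine ⟨?_, fun i => ?_, ⟨A, hA, fun x => ?_⟩, c, fun i j hij => ?_⟩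
  · have e1 : Set.range (fun i => L (f i)) = L '' Set.range f := by
      rw [← Set.range_comp]
      rfl
    have e2 : Submodule.span ℂ (L '' Set.range f) =
        (Submodule.span ℂ (Set.range f)).map (L.toLinearEquiv.toLinearMap) :=
      (Submodule.map_span _ _).symm
    rw [e1, e2, h1, Submodule.map_top]
    exact LinearMap.range_eq_top.2 L.surjective
  · rw [L.norm_map, h2]
  · have h5 := h3 (L.symm x)
    rw [L.symm.norm_map] at h5
    rw [← h5]
    refine Finset.sum_congr rfl fun i _ => ?_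
    have : inner ℂ x (L (f i)) = inner ℂ (L.symm x) (f i) := by
      rw [← L.symm.inner_map_map, L.symm_apply_apply]
    rw [this]
  · rw [L.inner_map_map]
    exact h4 i j hij

theorem equiv_to (L : E ≃ₗᵢ[ℂ] EuclideanSpace ℂ (Fin M)) (f g : Fin N → EuclideanSpace ℂ (Fin M))
    (h : Equivalent (fun i => L.symm (f i)) (fun i => L.symm (g i))) : Etf.Equivalent f g := by
  obtain ⟨U, σ, c, hc, h⟩ := h
  refine ⟨(L.symm.trans U).trans L, σ, c, hc, fun i => ?_⟩
  have h1 := congrArg L (h i)
  rw [L.apply_symm_apply, L.map_smul] at h1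
  exact h1

/-- `E` is isometric to `ℂ^M`, `M = dim E` -/
theorem exists_iso (hM : 1 ≤ Module.finrank ℂ E) (hE : Module.finrank ℂ E = M) :
    Nonempty (E ≃ₗᵢ[ℂ] EuclideanSpace ℂ (Fin M)) := by
  have : FiniteDimensional ℂ E := Module.finite_of_finrank_pos hM
  exact ⟨((stdOrthonormalBasis ℂ E).reindex (finCongr hE)).repr⟩

/-- a family in `ℂ^M` gives a family in `E` -/
theorem family (hM : 1 ≤ Module.finrank ℂ E) (hE : Module.finrank ℂ E = M) {d : ℕ}
    (h : ∃ f : (Fin d → ℝ) → Fin N → EuclideanSpace ℂ (Fin M),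
      Continuous f ∧ (∀ s, Etf.IsETF (f s)) ∧ ∀ s t, Etf.Equivalent (f s) (f t) → s = t) :
    ∃ f : (Fin d → ℝ) → Fin N → E, (∀ i, Continuous fun s => f s i) ∧ (∀ s, IsETF (f s)) ∧
      ∀ s t, Equivalent (f s) (f t) → s = t := by
  obtain ⟨L⟩ := exists_iso hM hE
  obtain ⟨f, h1, h2, h3⟩ := h
  refine ⟨fun s i => L.symm (f s i), fun i => ?_, fun s => isETF_of L (f s) (h2 s), ?_⟩
  · exact L.symm.continuous.comp ((continuous_apply i).comp h1)
  · intro s t hst
    exact h3 s t (equiv_to L (f s) (f t) hst)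

theorem hasETF_old {n : ℕ} (hn : 1 ≤ n) (h : HasETF N n) :
    ∃ f : Fin N → EuclideanSpace ℂ (Fin n), Etf.IsETF f := by
  obtain ⟨E', i1, i2, f, h1, h2⟩ := h
  obtain ⟨L⟩ := exists_iso (E := E') (by rw [h1]; exact hn) h1
  exact ⟨_, isETF_to L f h2⟩

theorem hasETF_new {n : ℕ} (f : Fin N → EuclideanSpace ℂ (Fin n)) (h : Etf.IsETF f) :
    HasETF N n :=
  ⟨EuclideanSpace ℂ (Fin n), inferInstance, inferInstance, f, finrank_euclideanSpace_fin,
    isETF_of (LinearIsometryEquiv.refl ℂ _) f h⟩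

theorem skew_old {m : ℕ} (hm : 1 ≤ m) (W : Fin m → Fin m → ℤ) (h : Skew W) :
    Etf.IsConference (-1) (Matrix.of W) := by
  obtain ⟨h1, h2⟩ := h
  refine ⟨h1, fun i j hij => (h2 i j hij).1, fun i j => ?_, ?_⟩
  · by_cases hij : i = j
    · subst hij
      change W i i = -1 * W i i
      rw [h1]
      rfl
    · change W j i = -1 * W i j
      rw [(h2 i j hij).2.1]
      ring
  · ext i j
    rw [Matrix.mul_apply, Matrix.smul_apply]
    change ∑ k, W i k * W j k = _
    by_cases hij : i = j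
    · subst hij
      rw [Matrix.one_apply_eq]
      have h3 : ∀ k, W i k * W i k = if k = i then 0 else 1 := by
        intro k
        by_cases hk : k = i
        · rw [if_pos hk, hk, h1, mul_zero]
        · rw [if_neg hk]
          rcases (h2 i k (Ne.symm hk)).1 with h | h <;> rw [h] <;> norm_num
      rw [Finset.sum_congr rfl fun k _ => h3 k, Finset.sum_ite]
      simp only [Finset.sum_const_zero, zero_add, Finset.sum_const, smul_eq_mul, mul_one]
      rw [Finset.filter_ne' , Finset.card_erase_of_mem (Finset.mem_univ i), Finset.card_univ,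
        Fintype.card_fin]
      simp only [nsmul_eq_mul, mul_one]
      rw [Nat.cast_sub hm, Nat.cast_one]
    · rw [Matrix.one_apply_ne hij, (h2 i j hij).2.2, smul_zero]

end Pool.Agent.H89.ETS
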